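import Pool.Agent.H577R3.RM.Stmts

set_option autoImplicit false

/-! The coordinate `θ i` is nontrivial at the generic points. -/

namespace Pool.Agent.H783R3.RM

open Pool.Agent.H577R3.RM Pool.Agent.Helper777.Prof Pool.Agent.H577R3

/-- additive version of `mon` -/
noncomputable def amon {K : Type} [Field K] {n : ℕ} (θ : Fin n → Kˣ) :
    (Fin n → ℤ) →ₗ[ℤ] Additive Kˣ :=
  AddMonoidHom.toIntLinearMap
    { toFun := fun u => Additive.ofMul (mon θ (Multiplicative.ofAdd u))
      map_zero' := by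
        rw [ofAdd_zero, map_one, ofMul_one]
      map_add' := fun u w => by
        rw [ofAdd_add, map_mul, ofMul_mul] }

theorem amon_apply {K : Type} [Field K] {n : ℕ} (θ : Fin n → Kˣ) (u : Fin n → ℤ) :
    amon θ u = Additive.ofMul (mon θ (Multiplicative.ofAdd u)) := rfl

theorem mon_single {K : Type} [Field K] {n : ℕ} (θ : Fin n → Kˣ) (c : Fin n) :
    mon θ (Multiplicative.ofAdd (Pi.single c 1)) = θ c := by
  show ∏ l, θ l ^ ((Pi.single c 1 : Fin n → ℤ) l) = θ c
  rw [Finset.prod_eq_single c]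
  · simp
  · intro b _ hb
    rw [Pi.single_eq_of_ne hb, zpow_zero]
  · intro h
    exact absurd (Finset.mem_univ c) h

/-- at a generic point there is no multiplicative relation between the coordinates in `C` -/
theorem gen0_norel {K : Type} [Field K] {n : ℕ} {C : Finset (Fin n)} {θ : Fin n → Kˣ}
    (hG : Gen0 C θ) (d : {c // c ∈ C} → ℤ) (hd : ∏ c : {c // c ∈ C}, θ c.1 ^ d c = 1) :
    ∀ c, d c = 0 := by
  classical
  -- positive and negative parts
  let s : {c // c ∈ C} →₀ ℕ := Finsupp.equivFunOnFinite.symm (fun c => (d c).toNat)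
  let t : {c // c ∈ C} →₀ ℕ := Finsupp.equivFunOnFinite.symm (fun c => (-(d c)).toNat)
  have hs : ∀ c, s c = (d c).toNat := fun c => rfl
  have ht : ∀ c, t c = (-(d c)).toNat := fun c => rfl
  have hst : ∀ c, ((s c : ℤ)) - (t c : ℤ) = d c := by
    intro c
    rw [hs, ht]
    omega
  have h1 : ∏ c : {c // c ∈ C}, θ c.1 ^ s c = ∏ c : {c // c ∈ C}, θ c.1 ^ t c := by
    have h2 : (∏ c : {c // c ∈ C}, θ c.1 ^ s c) * (∏ c : {c // c ∈ C}, θ c.1 ^ t c)⁻¹ = 1 := by
      rw [← hd, ← Finset.prod_inv_distrib, ← Finset.prod_mul_distrib]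
      refine Finset.prod_congr rfl (fun c _ => ?_)
      rw [← hst c, zpow_sub, zpow_natCast, zpow_natCast]
    exact mul_inv_eq_one.mp h2
  have hev : ∀ r : {c // c ∈ C} →₀ ℕ, evC C θ (MvPolynomial.monomial r 1) =
      ((∏ c : {c // c ∈ C}, θ c.1 ^ r c : Kˣ) : K) := by
    intro r
    show MvPolynomial.eval₂Hom (Int.castRingHom K) (fun c : {c // c ∈ C} => ((θ c.1 : Kˣ) : K))
      (MvPolynomial.monomial r 1) = _
    rw [MvPolynomial.eval₂Hom_monomial, map_one, one_mul, Finsupp.prod_fintype]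
    · push_cast
      rfl
    · intro c
      exact pow_zero _
  have hker : (MvPolynomial.monomial s (1 : ℤ) - MvPolynomial.monomial t 1) ∈
      RingHom.ker (evC C θ) := by
    rw [RingHom.mem_ker, map_sub, hev, hev, h1, sub_self]
  rw [show RingHom.ker (evC C θ) = ⊥ from hG, Ideal.mem_bot, sub_eq_zero] at hker
  have hst2 : s = t := by
    rcases (MvPolynomial.monomial_eq_monomial_iff s t (1 : ℤ) 1).mp hker with h | h
    · exact h.1
    · exact absurd h.1 one_ne_zero
  intro c
  rw [← hst c, hst2, sub_self]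

theorem taskNE1 : TaskNE1 := by
  classical
  intro n m v C i K _ θ hC hLI hv hG hi
  obtain ⟨hcard, -⟩ := hC
  have hnot : ¬ LinearIndependent ℤ (Sum.elim (Sum.elim v (fun _ : Unit =>
      (Pi.single i 1 : Fin n → ℤ))) (fun c : {c // c ∈ C} => (Pi.single c.1 1 : Fin n → ℤ))) := by
    intro h
    have h2 := h.fintype_card_le_finrank
    simp only [Fintype.card_sum, Fintype.card_fin, Fintype.card_unit, Fintype.card_coe,
      Module.finrank_fintype_fun_eq_card] at h2
    omega
  rw [Fintype.not_linearIndependent_iff] at hnot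
  obtain ⟨g, hg, a0, ha0⟩ := hnot
  rw [Fintype.sum_sum_type] at hg
  simp only [Sum.elim_inl, Sum.elim_inr] at hg
  -- the relation between the coordinates in `C`
  have hrel : ∏ c : {c // c ∈ C}, θ c.1 ^ g (Sum.inr c) = 1 := by
    have h3 := congrArg (amon θ) hg
    rw [map_add, map_sum, map_sum, map_zero] at h3
    have h4 : ∑ x : Fin m ⊕ Unit, amon θ (g (Sum.inl x) • (Sum.elim v (fun _ : Unit =>
        (Pi.single i 1 : Fin n → ℤ)) x)) = 0 := by
      refine Finset.sum_eq_zero (fun x _ => ?_)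
      rw [map_smul, amon_apply]
      rcases x with x | x
      · rw [Sum.elim_inl, hv x, ofMul_one, smul_zero]
      · rw [Sum.elim_inr, mon_single, hi, ofMul_one, smul_zero]
    rw [h4, zero_add] at h3
    have h5 := congrArg Additive.toMul h3
    rw [toMul_sum, toMul_zero] at h5
    rw [← h5]
    refine Finset.prod_congr rfl (fun c _ => ?_)
    rw [map_smul, amon_apply, mon_single, toMul_zsmul, toMul_ofMul]
  have hz := gen0_norel hG (fun c => g (Sum.inr c)) hrel
  have hz2 : ∑ x : {c // c ∈ C}, g (Sum.inr x) • (Pi.single x.1 1 : Fin n → ℤ) = 0 := by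
    refine Finset.sum_eq_zero (fun x _ => ?_)
    rw [hz x, zero_smul]
  rw [hz2, add_zero] at hg
  have h6 := (Fintype.linearIndependent_iff.mp hLI) (fun x => g (Sum.inl x)) hg
  rcases a0 with a0 | a0
  · exact ha0 (h6 a0)
  · exact ha0 (hz a0)

end Pool.Agent.H783R3.RM
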